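import Mathlib
import Pool.Agent.Lib.MP_a80a1d_h76.Embed

set_option autoImplicit false

namespace Pool.Agent.Lib.MP_a80a1d_h76

open Finset

open Classical in
lemma mass_le {ι : Type*} [DecidableEq ι] (Φ B : Finset ι) (π : ι → ℕ) (P : ι → Prop) (lam : ℝ)
    (h : ∀ r, (((Φ \ B).filter (fun e => π e = r)).card : ℝ) ≤
      lam * (Φ.filter (fun e => π e = r ∧ P e)).card) (A : Finset ℕ) :
    ∑ r ∈ A, ((Φ.filter (fun e => π e = r)).card : ℝ) ≤
      lam * (Φ.filter (fun e => π e ∈ A ∧ P e)).card + (Φ ∩ B).card := by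
  have h1 : ∀ r, ((Φ.filter (fun e => π e = r)).card : ℝ) =
      ((Φ \ B).filter (fun e => π e = r)).card + ((Φ ∩ B).filter (fun e => π e = r)).card := by
    intro r
    rw [← Nat.cast_add, ← card_union_of_disjoint, ← filter_union, sdiff_union_inter]
    exact disjoint_filter_filter (disjoint_sdiff_inter _ _)
  have h2 : ∑ r ∈ A, ((Φ.filter (fun e => π e = r ∧ P e)).card : ℝ) =
      (Φ.filter (fun e => π e ∈ A ∧ P e)).card := by
    have := sum_card_fiberwise_eq_card_filter (Φ.filter P) A π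
    rw [filter_filter] at this
    simp only [filter_filter] at this
    simp only [and_comm (a := P _)] at this
    exact_mod_cast this
  have h3 : ∑ r ∈ A, (((Φ ∩ B).filter (fun e => π e = r)).card : ℝ) ≤ (Φ ∩ B).card := by
    have := sum_card_fiberwise_eq_card_filter (Φ ∩ B) A π
    have h4 := card_filter_le (Φ ∩ B) (fun e => π e ∈ A)
    rw [← this] at h4
    exact_mod_cast h4
  simp only [h1]
  rw [sum_add_distrib, ← h2, mul_sum]
  exact add_le_add (sum_le_sum fun r _ => h r) h3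

open Classical in
lemma fib_sum {ι : Type*} [DecidableEq ι] (Φ : Finset ι) (π : ι → ℕ) (A : Finset ℕ) :
    ∑ r ∈ A, ((Φ.filter (fun e => π e = r)).card : ℝ) = (Φ.filter (fun e => π e ∈ A)).card := by
  exact_mod_cast sum_card_fiberwise_eq_card_filter Φ A π

open Classical in
lemma block_mass {ι : Type*} [DecidableEq ι] (Φ B : Finset ι) (π ρ : ι → ℕ) (Y : Set ℕ) (lam : ℝ)
    (h : ∀ r, (((Φ \ B).filter (fun e => π e = r)).card : ℝ) ≤
      lam * (Φ.filter (fun e => π e = r ∧ ρ e ∈ Y)).card) :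
    (Φ.card : ℝ) ≤ lam * ∑ x ∈ (Φ.image ρ).filter (· ∈ Y),
      ((Φ.filter (fun e => ρ e = x)).card : ℝ) + (Φ ∩ B).card := by
  have h1 := mass_le Φ B π (fun e => ρ e ∈ Y) lam h (Φ.image π)
  rw [fib_sum, filter_true_of_mem (fun e he => mem_image_of_mem π he)] at h1
  rw [fib_sum]
  have h2 : Φ.filter (fun e => ρ e ∈ (Φ.image ρ).filter (· ∈ Y)) =
      Φ.filter (fun e => π e ∈ Φ.image π ∧ ρ e ∈ Y) := by
    ext e
    simp only [mem_filter, mem_image]
    constructor
    · rintro ⟨he, -, hy⟩; exact ⟨he, ⟨e, he, rfl⟩, hy⟩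
    · rintro ⟨he, -, hy⟩; exact ⟨he, ⟨e, he, rfl⟩, hy⟩
  rw [h2]
  exact h1

open Classical in
lemma edge_mass {ι : Type*} [DecidableEq ι] (Φ B : Finset ι) (π ρ : ι → ℕ) (K : Set ℕ) (lam : ℝ) (hlam : 0 ≤ lam)
    (R : ℕ → ℕ → Prop) (hR : ∀ e ∈ Φ, R (π e) (ρ e))
    (h : ∀ r, (((Φ \ B).filter (fun e => π e = r)).card : ℝ) ≤
      lam * (Φ.filter (fun e => π e = r ∧ ρ e ∈ K)).card) (O : Finset ℕ) (Bad : Set ℕ) :
    ∑ x ∈ O.filter (fun x => ∀ y ∈ (Φ.image ρ).filter (· ∈ K), R x y → y ∈ Bad),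
      ((Φ.filter (fun e => π e = x)).card : ℝ) ≤
      lam * ∑ y ∈ ((Φ.image ρ).filter (· ∈ K)).filter (fun y => y ∈ Bad),
        ((Φ.filter (fun e => ρ e = y)).card : ℝ) + (Φ ∩ B).card := by
  refine (mass_le Φ B π (fun e => ρ e ∈ K) lam h _).trans (add_le_add ?_ le_rfl)
  refine mul_le_mul_of_nonneg_left ?_ hlam
  rw [fib_sum]
  refine Nat.cast_le.2 (card_le_card fun e he => ?_)
  obtain ⟨he1, he2, he3⟩ := mem_filter.1 he
  have h4 : ρ e ∈ (Φ.image ρ).filter (· ∈ K) := mem_filter.2 ⟨mem_image_of_mem ρ he1, he3⟩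
  exact mem_filter.2 ⟨he1, mem_filter.2 ⟨h4, (mem_filter.1 he2).2 _ h4 (hR e he1)⟩⟩

open Classical in
lemma coreL (k : ℕ) (F : SimpleGraph (Fin k)) (hF : F.IsAcyclic) (m0 : ℕ)
    (hcut : ∀ i j : Fin k, F.Adj i j → (i.val < m0 ↔ m0 ≤ j.val))
    (E : ℕ → ℕ → Prop) (hE : ∀ x y, E x y → E y x) (Φ B : Finset (ℕ × ℕ)) (Y K : ℕ → Set ℕ)
    (lam : ℝ) (hlam : 1 ≤ lam)
    (hY : ∀ i i', i < i' → i' < k + 1 → ∀ y ∈ Y i, ∀ y' ∈ Y i', y < y')
    (hK : ∀ i i', i < i' → i' < k + 1 → ∀ y ∈ K i, ∀ y' ∈ K i', y < y')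
    (hΦ : ∀ e ∈ Φ, e.1 < e.2 ∧ E e.1 e.2)
    (hRow : ∀ j < k + 1, ∀ r, (((Φ \ B).filter (fun e => e.1 = r)).card : ℝ) ≤
      lam * (Φ.filter (fun e => e.1 = r ∧ e.2 ∈ K j)).card)
    (hCol : ∀ i < k + 1, ∀ c, (((Φ \ B).filter (fun e => e.2 = c)).card : ℝ) ≤
      lam * (Φ.filter (fun e => e.2 = c ∧ e.1 ∈ Y i)).card)
    (hsmall : lam ^ (k + 1) * (k + 2) * (Φ ∩ B).card < Φ.card) :
    ∃ f : Fin k → ℕ, StrictMono f ∧ (∀ v, ∃ e ∈ Φ, f v = e.1 ∨ f v = e.2) ∧
      ∀ u v, F.Adj u v → E (f u) (f v) := by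
  set eta : ℝ := ((Φ ∩ B).card : ℝ) with heta
  have heta0 : 0 ≤ eta := by positivity
  have hl0 : 0 < lam := by linarith
  have hpk : 1 ≤ lam ^ k := one_le_pow₀ hlam
  have hk0 : (0 : ℝ) ≤ k := by positivity
  have hle : eta ≤ lam * eta := le_mul_of_one_le_left heta0 hlam
  have hle2 : lam * eta ≤ lam ^ k * (lam * eta) :=
    le_mul_of_one_le_left (by positivity) hpk
  have hsm : lam ^ k * (lam * eta) * (k + 2) < Φ.card := by
    rw [pow_succ] at hsmall; linarith
  obtain ⟨e0, he0, hr0, hc0⟩ : ∃ e ∈ Φ, e.1 ∈ Y k ∧ e.2 ∈ K 0 := by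
    by_contra hcon
    push Not at hcon
    have h1 := block_mass Φ B Prod.snd Prod.fst (Y k) lam (hCol k (by omega))
    have h2 := mass_le Φ B Prod.fst (fun e => e.2 ∈ K 0) lam (hRow 0 (by omega))
      ((Φ.image Prod.fst).filter (· ∈ Y k))
    rw [filter_false_of_mem (s := Φ)
      (fun e he h => hcon e he (mem_filter.1 h.1).2 h.2)] at h2
    simp only [card_empty, Nat.cast_zero, mul_zero, zero_add] at h2
    have h3 := mul_le_mul_of_nonneg_left h2 hl0.le
    have h4 : 0 ≤ lam ^ k * (lam * eta) * k := by positivity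
    nlinarith
  have hr0c0 := (hΦ e0 he0).1
  obtain ⟨f, hf1, hf2⟩ := embedL F hF
    (fun v => if v.val < m0 then (Φ.image Prod.fst).filter (· ∈ Y v.val)
      else (Φ.image Prod.snd).filter (· ∈ K (v.val + 1)))
    (fun v x => if v.val < m0 then ((Φ.filter (fun e => e.1 = x)).card : ℝ)
      else ((Φ.filter (fun e => e.2 = x)).card : ℝ))
    (fun v x => by split_ifs <;> positivity) E hE lam eta ((Φ.card - eta) / lam) hlam heta0
    (fun v => by
      have := v.2
      rw [div_le_iff₀ hl0]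
      split_ifs
      · have := block_mass Φ B Prod.snd Prod.fst (Y v.val) lam (hCol v.val (by omega))
        linarith
      · have := block_mass Φ B Prod.fst Prod.snd (K (v.val + 1)) lam (hRow _ (by omega))
        linarith)
    (fun u v huv Bad => by
      have hu := u.2
      have hv := v.2
      have h1 := hcut u v huv
      by_cases hum : u.val < m0
      · have hvm : ¬ v.val < m0 := by have := h1.1 hum; omega
        simp only [if_pos hum, if_neg hvm]
        convert edge_mass Φ B Prod.fst Prod.snd (K (v.val + 1)) lam hl0.le E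
          (fun e he => (hΦ e he).2) (hRow _ (by omega)) _ Bad
      · have hvm : v.val < m0 := by
          by_contra h
          exact hum (h1.2 (by omega))
        simp only [if_neg hum, if_pos hvm]
        convert edge_mass Φ B Prod.snd Prod.fst (Y v.val) lam hl0.le E
          (fun e he => hE _ _ (hΦ e he).2) (hCol _ (by omega)) _ Bad)
    0 univ (fun _ => ∅) (by
      simp only [Set.mem_empty_iff_false, filter_false, sum_empty, sum_const_zero, zero_add,
        card_univ, Fintype.card_fin]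
      rw [lt_div_iff₀ hl0]
      nlinarith)
  have hf : ∀ v : Fin k, f v ∈ (if v.val < m0 then (Φ.image Prod.fst).filter (· ∈ Y v.val)
      else (Φ.image Prod.snd).filter (· ∈ K (v.val + 1))) :=
    fun v => (hf1 v (mem_univ v)).1
  refine ⟨f, fun u v huv => ?_, fun v => ?_, fun u v huv => hf2 u (mem_univ _) v (mem_univ _) huv⟩
  · have hu := hf u
    have hv := hf v
    have h1 : u.val < v.val := huv
    have h2 := v.2
    by_cases hvm : v.val < m0
    · rw [if_pos hvm] at hv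
      rw [if_pos (by omega)] at hu
      exact hY _ _ h1 (by omega) _ (mem_filter.1 hu).2 _ (mem_filter.1 hv).2
    · rw [if_neg hvm] at hv
      by_cases hum : u.val < m0
      · rw [if_pos hum] at hu
        have e1 := hY u.val k (by omega) (by omega) _ (mem_filter.1 hu).2 _ hr0
        have e2 := hK 0 (v.val + 1) (by omega) (by omega) _ hc0 _ (mem_filter.1 hv).2
        omega
      · rw [if_neg hum] at hu
        exact hK _ _ (by omega) (by omega) _ (mem_filter.1 hu).2 _ (mem_filter.1 hv).2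
  · have hv := hf v
    split_ifs at hv
    · obtain ⟨e, he, h⟩ := mem_image.1 (mem_filter.1 hv).1
      exact ⟨e, he, Or.inl h.symm⟩
    · obtain ⟨e, he, h⟩ := mem_image.1 (mem_filter.1 hv).1
      exact ⟨e, he, Or.inr h.symm⟩

end Pool.Agent.Lib.MP_a80a1d_h76
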