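import Mathlib

set_option autoImplicit false

namespace Pool.Agent.Lib.MP_a80a1d_h76

open Finset

lemma ulog (u : ℝ) (hu : 0 ≤ u) : u - 1 ≤ u * Real.log u := by
  rcases hu.eq_or_lt with rfl | hu
  · simp
  · have h := Real.log_le_sub_one_of_pos (inv_pos.2 hu)
    rw [Real.log_inv] at h
    have h2 := mul_le_mul_of_nonneg_left h hu.le
    rw [mul_sub, mul_inv_cancel₀ hu.ne'] at h2
    linarith

lemma ulog2 (u : ℝ) (hu : 0 ≤ u) (hu2 : u ≤ 1 / 2) : u - 1 + 1 / 8 ≤ u * Real.log u := by
  rcases hu.eq_or_lt with rfl | hu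
  · norm_num
  · have h := ulog (2 * u) (by linarith)
    rw [Real.log_mul (by norm_num) hu.ne'] at h
    have h2 := Real.log_two_lt_d9
    have h3 : u * Real.log 2 ≤ 1 / 2 * 0.7 :=
      mul_le_mul hu2 (by linarith) (Real.log_nonneg (by norm_num)) (by norm_num)
    nlinarith

lemma fiber_le {α β : Type*} [DecidableEq β] (N : Finset α) (key : α → β) (g h : α → ℝ)
    (H : ∀ c0 ∈ N, ∑ c ∈ N.filter (fun c => key c = key c0), g c ≤
      ∑ c ∈ N.filter (fun c => key c = key c0), h c) : ∑ c ∈ N, g c ≤ ∑ c ∈ N, h c := by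
  rw [← sum_fiberwise_of_maps_to (fun c hc => mem_image_of_mem key hc) g,
    ← sum_fiberwise_of_maps_to (fun c hc => mem_image_of_mem key hc) h]
  refine sum_le_sum fun y hy => ?_
  obtain ⟨c0, hc0, rfl⟩ := mem_image.1 hy
  exact H c0 hc0

lemma atom {α : Type*} (X : Finset α) (hX : X.Nonempty) (f : α → ℕ) (b : ℕ) (hb : 0 < b)
    (hf : ∀ x ∈ X, f x < b) :
    (if ∃ d < b, 2 * b * (X.filter (fun x => f x = d)).card < X.card then (X.card : ℝ) / (8 * b)
      else 0) ≤
    ∑ x ∈ X, Real.log (b * (X.filter (fun y => f y = f x)).card / X.card) := by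
  have hm : (0 : ℝ) < X.card := by exact_mod_cast card_pos.2 hX
  have hbR : (0 : ℝ) < b := by exact_mod_cast hb
  set u : ℕ → ℝ := fun d => b * (X.filter (fun y => f y = d)).card / X.card with hu
  have hu0 : ∀ d, 0 ≤ u d := fun d => by simp only [hu]; positivity
  have h1 : ∑ x ∈ X, Real.log (u (f x)) =
      X.card / b * ∑ d ∈ range b, u d * Real.log (u d) := by
    rw [← sum_fiberwise_of_maps_to (fun x hx => mem_range.2 (hf x hx)), mul_sum]
    refine sum_congr rfl fun d _ => ?_
    rw [sum_congr rfl (fun x hx => by rw [(mem_filter.1 hx).2]), sum_const, nsmul_eq_mul,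
      ← mul_assoc]
    congr 1
    simp only [hu]
    field_simp
  have h2 : ∑ d ∈ range b, (u d - 1) = 0 := by
    have h3 := card_eq_sum_card_fiberwise (fun x hx => mem_coe.2 (mem_range.2 (hf x hx)) :
      Set.MapsTo f (X : Set α) (range b : Finset ℕ))
    have h4 : ∑ d ∈ range b, ((X.filter (fun y => f y = d)).card : ℝ) = X.card := by
      exact_mod_cast h3.symm
    rw [sum_sub_distrib, sum_const, card_range, nsmul_eq_mul, mul_one]
    simp only [hu]
    rw [← sum_div, ← mul_sum, h4]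
    field_simp
    ring
  change _ ≤ ∑ x ∈ X, Real.log (u (f x))
  rw [h1]
  split_ifs with hex
  · obtain ⟨d, hd, hlt⟩ := hex
    have h5 : u d ≤ 1 / 2 := by
      simp only [hu]
      rw [div_le_iff₀ hm]
      have : (2 * b * (X.filter (fun x => f x = d)).card : ℝ) < X.card := by exact_mod_cast hlt
      linarith
    have h6 : 1 / 8 ≤ ∑ d ∈ range b, u d * Real.log (u d) := by
      rw [← add_sum_erase _ _ (mem_range.2 hd)] at h2 ⊢
      have h7 : ∑ x ∈ (range b).erase d, (u x - 1) ≤
          ∑ x ∈ (range b).erase d, u x * Real.log (u x) := sum_le_sum fun x _ => ulog _ (hu0 x)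
      have := ulog2 _ (hu0 d) h5
      linarith
    calc (X.card : ℝ) / (8 * b) = X.card / b * (1 / 8) := by field_simp
      _ ≤ _ := mul_le_mul_of_nonneg_left h6 (by positivity)
  · refine mul_nonneg (by positivity) ?_
    rw [← h2]
    exact sum_le_sum fun x _ => ulog _ (hu0 x)

/-- One level of the digit tree. -/
lemma level {α β : Type*} [DecidableEq β] (N : Finset α) (p' : α → ℕ) (S : α → β) (b : ℕ)
    (hb : 0 < b) :
    ((N.filter (fun c => ∃ d < b,
      2 * b * (N.filter (fun c' => p' c' = b * (p' c / b) + d ∧ S c' = S c)).card <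
        (N.filter (fun c' => p' c' / b = p' c / b ∧ S c' = S c)).card)).card : ℝ) / (8 * b) ≤
    ∑ c ∈ N, Real.log (b * (N.filter (fun c' => p' c' = p' c ∧ S c' = S c)).card /
      (N.filter (fun c' => p' c' / b = p' c / b ∧ S c' = S c)).card) := by
  rw [card_filter]
  push_cast
  rw [sum_div]
  refine fiber_le N (fun c => (p' c / b, S c)) _ _ fun c0 hc0 => ?_
  set X := N.filter (fun c => (p' c / b, S c) = (p' c0 / b, S c0)) with hX
  have hXm : ∀ c, c ∈ X ↔ c ∈ N ∧ p' c / b = p' c0 / b ∧ S c = S c0 := fun c => by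
    simp [hX]
  have hXc : ∀ c ∈ X, N.filter (fun c' => p' c' / b = p' c / b ∧ S c' = S c) = X := by
    intro c hc
    obtain ⟨-, h1, h2⟩ := (hXm c).1 hc
    ext c'
    rw [hXm, mem_filter, h1, h2]
  have hXd : ∀ c ∈ X, ∀ d < b, N.filter (fun c' => p' c' = b * (p' c / b) + d ∧ S c' = S c) =
      X.filter (fun x => p' x % b = d) := by
    intro c hc d hd
    obtain ⟨-, h1, h2⟩ := (hXm c).1 hc
    ext c'
    rw [mem_filter, mem_filter, hXm, h1, h2]
    constructor
    · rintro ⟨h3, h4, h5⟩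
      refine ⟨⟨h3, ?_, h5⟩, ?_⟩
      · rw [h4, Nat.mul_add_div hb, Nat.div_eq_of_lt hd, add_zero]
      · rw [h4, Nat.mul_add_mod, Nat.mod_eq_of_lt hd]
    · rintro ⟨⟨h3, h4, h5⟩, h6⟩
      exact ⟨h3, by rw [← h4, ← h6, Nat.div_add_mod], h5⟩
  have hA := atom X ⟨c0, (hXm c0).2 ⟨hc0, rfl, rfl⟩⟩ (fun x => p' x % b) b hb
    (fun x _ => Nat.mod_lt _ hb)
  refine le_trans (le_of_eq ?_) (hA.trans (le_of_eq (sum_congr rfl fun c hc => ?_)))
  · have h1 : ∀ c ∈ X, (∃ d < b,
        2 * b * (N.filter (fun c' => p' c' = b * (p' c / b) + d ∧ S c' = S c)).card <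
          (N.filter (fun c' => p' c' / b = p' c / b ∧ S c' = S c)).card) ↔
        ∃ d < b, 2 * b * (X.filter (fun x => p' x % b = d)).card < X.card := by
      intro c hc
      rw [hXc c hc]
      exact exists_congr fun d => and_congr_right fun hd => by rw [hXd c hc d hd]
    rw [sum_congr rfl (fun c hc => by rw [if_congr (h1 c hc) rfl rfl])]
    split_ifs
    · rw [sum_const, nsmul_eq_mul]; ring
    · simp
  · rw [hXc c hc, ← hXd c hc _ (Nat.mod_lt _ hb), Nat.div_add_mod]

lemma gibbs {α β : Type*} [DecidableEq β] (N : Finset α) (S : α → β) (D : Finset β) (w : β → ℝ)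
    (hS : ∀ c ∈ N, S c ∈ D) (hw : ∀ y ∈ D, 0 < w y) (hD : ∑ y ∈ D, w y ≤ 1) :
    ∑ c ∈ N, Real.log (N.card / (N.filter (fun c' => S c' = S c)).card) ≤
      ∑ c ∈ N, -Real.log (w (S c)) := by
  have hA : ∀ c ∈ N, (0 : ℝ) < (N.filter (fun c' => S c' = S c)).card := fun c hc =>
    Nat.cast_pos.2 (card_pos.2 ⟨c, mem_filter.2 ⟨hc, rfl⟩⟩)
  have h1 : ∑ c ∈ N, w (S c) / (N.filter (fun c' => S c' = S c)).card ≤ 1 := by
    refine le_trans ?_ hD
    rw [← sum_fiberwise_of_maps_to hS]
    refine sum_le_sum fun y hy => ?_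
    rw [sum_congr rfl (fun x hx => by rw [(mem_filter.1 hx).2]), sum_const, nsmul_eq_mul]
    rcases Nat.eq_zero_or_pos (N.filter (fun c' => S c' = y)).card with h | h
    · rw [h]; simpa using (hw y hy).le
    · have : (0 : ℝ) < (N.filter (fun c' => S c' = y)).card := by exact_mod_cast h
      rw [mul_div_cancel₀ _ this.ne']
  have h2 : ∀ c ∈ N, Real.log (N.card / (N.filter (fun c' => S c' = S c)).card) ≤
      -Real.log (w (S c)) +
        (N.card * (w (S c) / (N.filter (fun c' => S c' = S c)).card) - 1) := by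
    intro c hc
    have hN : (0 : ℝ) < N.card := by exact_mod_cast card_pos.2 ⟨c, hc⟩
    have h3 := hA c hc
    have h4 := hw _ (hS c hc)
    have h5 := Real.log_le_sub_one_of_pos
      (show 0 < N.card / (N.filter (fun c' => S c' = S c)).card * w (S c) by positivity)
    rw [Real.log_mul (by positivity) h4.ne'] at h5
    have : (N.card : ℝ) / (N.filter (fun c' => S c' = S c)).card * w (S c) =
      N.card * (w (S c) / (N.filter (fun c' => S c' = S c)).card) := by ring
    linarith
  refine (sum_le_sum h2).trans ?_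
  rw [sum_add_distrib, sum_sub_distrib, ← mul_sum, sum_const, nsmul_eq_mul, mul_one]
  have := mul_le_mul_of_nonneg_left h1 (Nat.cast_nonneg (α := ℝ) N.card)
  linarith

end Pool.Agent.Lib.MP_a80a1d_h76
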