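import Mathlib

set_option autoImplicit false

namespace Pool.Agent.Lib.MP_a80a1d_h76

open Finset

def rk (N : Finset ℕ) (c : ℕ) : ℕ := (N.filter (· < c)).card

def pos (N : Finset ℕ) (B c : ℕ) : ℕ := rk N c * B / N.card

def cell (N : Finset ℕ) (B g : ℕ) : Finset ℕ := N.filter (fun c => pos N B c = g)

lemma rk_mono (N : Finset ℕ) {c c' : ℕ} (h : c ≤ c') : rk N c ≤ rk N c' :=
  card_le_card fun _ hx => mem_filter.2 ⟨(mem_filter.1 hx).1, lt_of_lt_of_le (mem_filter.1 hx).2 h⟩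

lemma rk_lt_rk (N : Finset ℕ) {c c' : ℕ} (hc : c ∈ N) (h : c < c') : rk N c < rk N c' := by
  refine card_lt_card ⟨fun x hx =>
    mem_filter.2 ⟨(mem_filter.1 hx).1, lt_trans (mem_filter.1 hx).2 h⟩, fun hs => ?_⟩
  exact lt_irrefl _ (mem_filter.1 (hs (mem_filter.2 ⟨hc, h⟩))).2

lemma rk_lt (N : Finset ℕ) {c : ℕ} (hc : c ∈ N) : rk N c < N.card :=
  (rk_lt_rk N hc (Nat.lt_succ_self c)).trans_le (card_filter_le _ _)

lemma rk_injOn (N : Finset ℕ) : Set.InjOn (rk N) N := by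
  intro c hc c' hc' h
  rcases lt_trichotomy c c' with h1 | h1 | h1
  · exact absurd h (rk_lt_rk N hc h1).ne
  · exact h1
  · exact absurd h.symm (rk_lt_rk N hc' h1).ne

lemma image_rk (N : Finset ℕ) : N.image (rk N) = range N.card := by
  refine eq_of_subset_of_card_le (fun x hx => ?_) ?_
  · obtain ⟨c, hc, rfl⟩ := mem_image.1 hx
    exact mem_range.2 (rk_lt N hc)
  · rw [card_image_of_injOn (rk_injOn N), card_range]

lemma card_cell (N : Finset ℕ) (B g : ℕ) :
    (cell N B g).card = ((range N.card).filter (fun r => r * B / N.card = g)).card := by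
  rw [← image_rk, filter_image, card_image_of_injOn
    ((rk_injOn N).mono (fun x hx => (mem_filter.1 hx).1))]
  rfl

lemma count_bounds (M B g : ℕ) (hM : 0 < M) (hg : g < B) :
    M ≤ ((range M).filter (fun r => r * B / M = g)).card * B + B ∧
    ((range M).filter (fun r => r * B / M = g)).card * B ≤ M + B := by
  have hB : 0 < B := by omega
  have hce : ∀ x r : ℕ, (x + (B - 1)) / B ≤ r ↔ x ≤ r * B := by
    intro x r
    rw [← Nat.lt_succ_iff, Nat.div_lt_iff_lt_mul hB, Nat.succ_mul]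
    omega
  have h1 : (range M).filter (fun r => r * B / M = g) =
      Ico ((g * M + (B - 1)) / B) (((g + 1) * M + (B - 1)) / B) := by
    ext r
    rw [mem_filter, mem_range, mem_Ico, hce, ← not_le (a := ((g + 1) * M + (B - 1)) / B), hce,
      not_le, ← Nat.le_div_iff_mul_le hM, ← Nat.div_lt_iff_lt_mul hM]
    constructor
    · rintro ⟨-, h⟩; omega
    · rintro ⟨h2, h3⟩
      refine ⟨?_, by omega⟩
      have h4 : r * B / M < B := by omega
      rw [Nat.div_lt_iff_lt_mul hM, mul_comm B M] at h4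
      exact lt_of_mul_lt_mul_right h4 (Nat.zero_le _)
  rw [h1, Nat.card_Ico, Nat.sub_mul]
  have h2 := Nat.div_mul_le_self (g * M + (B - 1)) B
  have h3 := Nat.div_mul_le_self ((g + 1) * M + (B - 1)) B
  have h4 := (hce (g * M) _).1 le_rfl
  have h5 := (hce ((g + 1) * M) _).1 le_rfl
  rw [Nat.succ_mul] at h3 h5 ⊢
  omega

lemma pos_lt (N : Finset ℕ) {B c : ℕ} (hB : 0 < B) (hc : c ∈ N) : pos N B c < B := by
  unfold pos
  rw [Nat.div_lt_iff_lt_mul (card_pos.2 ⟨c, hc⟩), mul_comm B]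
  exact Nat.mul_lt_mul_of_pos_right (rk_lt N hc) hB

lemma pos_mono (N : Finset ℕ) (B : ℕ) {c c' : ℕ} (h : c ≤ c') : pos N B c ≤ pos N B c' :=
  Nat.div_le_div_right (Nat.mul_le_mul_right _ (rk_mono N h))

lemma pos_succ (N : Finset ℕ) {b : ℕ} (hb : 0 < b) (u c : ℕ) :
    pos N (b ^ (u + 1)) c / b = pos N (b ^ u) c := by
  unfold pos
  rw [Nat.div_div_eq_div_mul, pow_succ, ← mul_assoc, Nat.mul_div_mul_right _ _ hb]

lemma cell_upper (N : Finset ℕ) {B g : ℕ} (hg : g < B) (hB : B ≤ N.card) :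
    (cell N B g).card * B ≤ 2 * N.card := by
  have := (count_bounds N.card B g (by omega) hg).2
  rw [card_cell]
  omega

lemma cell_lower (N : Finset ℕ) {B g : ℕ} (hg : g < B) (hB : 2 * B ≤ N.card) :
    N.card ≤ 2 * ((cell N B g).card * B) := by
  have := (count_bounds N.card B g (by omega) hg).1
  rw [card_cell]
  omega

lemma cell_nonempty (N : Finset ℕ) {B g : ℕ} (hg : g < B) (hB : 2 * B ≤ N.card) :
    (cell N B g).Nonempty := by
  have := cell_lower N hg hB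
  rw [← card_pos]
  by_contra h
  have h0 : (cell N B g).card = 0 := by omega
  rw [h0] at this
  omega

lemma cell_ratio (N : Finset ℕ) {b u g g' : ℕ} (hb : 0 < b) (hg : g < b ^ u)
    (hg' : g' < b ^ (u + 1)) (hB : 2 * b ^ (u + 1) ≤ N.card) :
    (cell N (b ^ u) g).card ≤ 4 * b * (cell N (b ^ (u + 1)) g').card := by
  have h0 : b ^ u ≤ b ^ (u + 1) := Nat.pow_le_pow_right hb (by omega)
  have h1 := cell_upper N hg (by omega)
  have h2 := cell_lower N hg' hB
  refine le_of_mul_le_mul_right ?_ (pow_pos hb u)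
  calc (cell N (b ^ u) g).card * b ^ u ≤ 2 * N.card := h1
    _ ≤ 2 * (2 * ((cell N (b ^ (u + 1)) g').card * b ^ (u + 1))) := by omega
    _ = _ := by ring

lemma child_sub (N : Finset ℕ) {b d : ℕ} (hd : d < b) (u g : ℕ) :
    cell N (b ^ (u + 1)) (b * g + d) ⊆ cell N (b ^ u) g := by
  intro c hc
  obtain ⟨h1, h2⟩ := mem_filter.1 hc
  have hb : 0 < b := by omega
  refine mem_filter.2 ⟨h1, ?_⟩
  rw [← pos_succ N hb, h2, Nat.mul_add_div hb, Nat.div_eq_of_lt hd, add_zero]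

lemma child_lt {b d u g : ℕ} (hd : d < b) (hg : g < b ^ u) : b * g + d < b ^ (u + 1) := by
  rw [pow_succ']
  nlinarith

def hi (X : Finset ℕ) : ℕ := X.sup id

noncomputable def lo (X : Finset ℕ) : ℕ := sInf (X : Set ℕ)

noncomputable def lg (X : Finset ℕ) : ℕ := Nat.log 2 (hi X - lo X + 1)

lemma le_hi {X : Finset ℕ} {c : ℕ} (hc : c ∈ X) : c ≤ hi X := le_sup (f := id) hc

lemma lo_le {X : Finset ℕ} {c : ℕ} (hc : c ∈ X) : lo X ≤ c := Nat.sInf_le (mem_coe.2 hc)

lemma hi_mem {X : Finset ℕ} (hX : X.Nonempty) : hi X ∈ X := by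
  obtain ⟨c, hc, h⟩ := exists_mem_eq_sup X hX id
  unfold hi
  rw [h]; exact hc

lemma lo_mem {X : Finset ℕ} (hX : X.Nonempty) : lo X ∈ X :=
  mem_coe.1 (Nat.sInf_mem (coe_nonempty.2 hX))

lemma lg_mono {X Y : Finset ℕ} (hX : X.Nonempty) (h : X ⊆ Y) : lg X ≤ lg Y := by
  have h1 := le_hi (h (hi_mem hX))
  have h2 := lo_le (h (lo_mem hX))
  exact Nat.log_mono_right (by omega)

lemma lg_le {X : Finset ℕ} {n : ℕ} (hX : X.Nonempty) (h : X ⊆ range n) : lg X ≤ Nat.log 2 n := by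
  have h1 := mem_range.1 (h (hi_mem hX))
  exact Nat.log_mono_right (by omega)

lemma span_lt (X : Finset ℕ) : hi X - lo X + 1 < 2 ^ (lg X + 1) :=
  Nat.lt_pow_succ_log_self (by norm_num) _

lemma cut_le (X : Finset ℕ) : hi X / 2 ^ lg X * 2 ^ lg X ≤ hi X := Nat.div_mul_le_self _ _

lemma le_cut {X : Finset ℕ} (hX : X.Nonempty) : lo X ≤ hi X / 2 ^ lg X * 2 ^ lg X := by
  have h1 : 2 ^ lg X ≤ hi X - lo X + 1 := Nat.pow_log_le_self 2 (by omega)
  have h2 := Nat.lt_div_mul_add (a := hi X) (pow_pos (by norm_num : 0 < 2) (lg X))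
  have h3 := lo_le (hi_mem hX)
  omega

end Pool.Agent.Lib.MP_a80a1d_h76
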