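import Mathlib
import Pool.Agent.Lib.MP_a80a1d_h76.Tree
import Pool.Agent.Lib.MP_a80a1d_h76.Entropy

set_option autoImplicit false

namespace Pool.Agent.Lib.MP_a80a1d_h76

open Finset

abbrev Dsc : Type := (Σ _ : ℕ × ℕ, ℕ)

def cutpt (q : Dsc) : ℕ := q.2 * 2 ^ q.1.2

def blk {a : ℕ} (q : Fin a → Dsc) (j : ℕ) : Set ℕ :=
  {c | ∀ i : Fin a, (i.val < j → cutpt (q i) < c) ∧ (j ≤ i.val → c < cutpt (q i))}

def dset (L c : ℕ) : Finset Dsc :=
  (range (L + 2) ×ˢ range (L + 2)).sigma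
    (fun p => Icc (c / 2 ^ p.2 - 2 ^ p.1) (c / 2 ^ p.2 + 2 ^ p.1))

noncomputable def wt (L : ℕ) (q : Dsc) : ℝ := 1 / (((L : ℝ) + 2) ^ 2 * 2 ^ (q.1.1 + 2))

def buf (N : Finset ℕ) (a u g j : ℕ) : Finset ℕ :=
  cell N ((2 * a) ^ (u + 1)) (2 * a * g + (2 * j + 1))

noncomputable def dsc (N : Finset ℕ) (a u g : ℕ) (j : Fin a) : Dsc :=
  ⟨(lg (cell N ((2 * a) ^ u) g) + 1 - lg (buf N a u g j), lg (buf N a u g j)),
    hi (buf N a u g j) / 2 ^ lg (buf N a u g j)⟩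

noncomputable def del (N : Finset ℕ) (a u c : ℕ) : Fin a → Dsc :=
  dsc N a u (pos N ((2 * a) ^ u) c)

lemma blk_ordered {a : ℕ} (q : Fin a → Dsc) (j j' : ℕ) (h : j < j') (h' : j' < a) :
    ∀ y ∈ blk q j, ∀ y' ∈ blk q j', y < y' := fun _ hy _ hy' =>
  lt_trans ((hy ⟨j, by omega⟩).2 le_rfl) ((hy' ⟨j, by omega⟩).1 h)

lemma wt_pos (L : ℕ) (q : Dsc) : 0 < wt L q := by unfold wt; positivity

lemma wt_sum (L c : ℕ) : ∑ q ∈ dset L c, wt L q ≤ 1 := by
  unfold dset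
  rw [sum_sigma]
  have h1 : ∀ p ∈ range (L + 2) ×ˢ range (L + 2),
      ∑ z ∈ Icc (c / 2 ^ p.2 - 2 ^ p.1) (c / 2 ^ p.2 + 2 ^ p.1), wt L ⟨p, z⟩ ≤
        1 / ((L : ℝ) + 2) ^ 2 := by
    intro p _
    simp only [wt]
    rw [sum_const, nsmul_eq_mul, Nat.card_Icc]
    have h2 : c / 2 ^ p.2 + 2 ^ p.1 + 1 - (c / 2 ^ p.2 - 2 ^ p.1) ≤ 2 ^ (p.1 + 2) := by
      have : 0 < 2 ^ p.1 := by positivity
      rw [pow_add]
      omega
    have h3 : ((c / 2 ^ p.2 + 2 ^ p.1 + 1 - (c / 2 ^ p.2 - 2 ^ p.1) : ℕ) : ℝ) ≤ 2 ^ (p.1 + 2) := by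
      exact_mod_cast h2
    refine (mul_le_mul_of_nonneg_right h3 (by positivity)).trans (le_of_eq ?_)
    field_simp
  refine (sum_le_sum h1).trans (le_of_eq ?_)
  rw [sum_const, card_product, card_range, nsmul_eq_mul]
  push_cast
  field_simp

section

variable {N : Finset ℕ} {a T u n : ℕ}

lemma pw_le (ha : 0 < a) (hN : 2 * (2 * a) ^ T ≤ N.card) (hu : u ≤ T) :
    2 * (2 * a) ^ u ≤ N.card :=
  le_trans (Nat.mul_le_mul_left _ (Nat.pow_le_pow_right (by omega) hu)) hN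

lemma buf_sub (g : ℕ) {j : ℕ} (hj : j < a) : buf N a u g j ⊆ cell N ((2 * a) ^ u) g :=
  child_sub N (by omega) u g

lemma buf_nonempty (hN : 2 * (2 * a) ^ T ≤ N.card) (hu : u < T) {g j : ℕ}
    (hg : g < (2 * a) ^ u) (hj : j < a) : (buf N a u g j).Nonempty :=
  cell_nonempty N (child_lt (by omega) hg) (pw_le (by omega) hN hu)

lemma del_mem (hNn : N ⊆ range n) (hN : 2 * (2 * a) ^ T ≤ N.card) (hu : u < T) {c : ℕ}
    (hc : c ∈ N) : del N a u c ∈ Fintype.piFinset (fun _ : Fin a => dset (Nat.log 2 n) c) := by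
  rw [Fintype.mem_piFinset]
  intro j
  have ha : 0 < a := j.pos
  set g := pos N ((2 * a) ^ u) c with hg
  have hgl : g < (2 * a) ^ u := pos_lt N (by positivity) hc
  have hne := buf_nonempty hN hu hgl j.2
  have hsub : buf N a u g j ⊆ cell N ((2 * a) ^ u) g := buf_sub g j.2
  have hcX : c ∈ cell N ((2 * a) ^ u) g := mem_filter.2 ⟨hc, rfl⟩
  have hXn : cell N ((2 * a) ^ u) g ⊆ range n := (filter_subset _ _).trans hNn
  have h1 := lg_mono hne hsub
  have h2 := lg_le ⟨c, hcX⟩ hXn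
  have h3 := span_lt (cell N ((2 * a) ^ u) g)
  have h4 := cut_le (buf N a u g j)
  have h5 := le_cut hne
  have h6 := le_hi (hsub (hi_mem hne))
  have h7 := lo_le (hsub (lo_mem hne))
  have h8 := le_hi hcX
  have h9 := lo_le hcX
  simp only [del, dsc, dset, mem_sigma, mem_product, mem_range, mem_Icc, ← hg]
  set k := lg (buf N a u g j)
  set t := lg (cell N ((2 * a) ^ u) g) + 1 - k with ht
  set z := hi (buf N a u g j) / 2 ^ k
  have h10 : 2 ^ (lg (cell N ((2 * a) ^ u) g) + 1) = 2 ^ t * 2 ^ k := by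
    rw [← pow_add]; congr 1; omega
  rw [h10] at h3
  have hk : 0 < 2 ^ k := by positivity
  refine ⟨⟨by omega, by omega⟩, ?_, ?_⟩
  · have : c / 2 ^ k ≤ z + 2 ^ t := by
      refine Nat.div_le_of_le_mul ?_
      rw [mul_add, mul_comm (2 ^ k) z, mul_comm (2 ^ k) (2 ^ t)]
      omega
    exact Nat.sub_le_iff_le_add.2 this
  · rw [← Nat.add_mul_div_right _ _ hk, Nat.le_div_iff_mul_le hk]
    omega

lemma child_blk (hN : 2 * (2 * a) ^ T ≤ N.card) (hu : u < T) {g j c : ℕ}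
    (hg : g < (2 * a) ^ u) (hc : pos N ((2 * a) ^ (u + 1)) c = 2 * a * g + 2 * j) :
    c ∈ blk (dsc N a u g) j := by
  intro i
  have hne := buf_nonempty hN hu hg i.2
  have h4 := cut_le (buf N a u g i)
  have h5 := le_cut hne
  have h6 : pos N ((2 * a) ^ (u + 1)) (hi (buf N a u g i)) = 2 * a * g + (2 * i + 1) :=
    (mem_filter.1 (hi_mem hne)).2
  have h7 : pos N ((2 * a) ^ (u + 1)) (lo (buf N a u g i)) = 2 * a * g + (2 * i + 1) :=
    (mem_filter.1 (lo_mem hne)).2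
  simp only [cutpt, dsc]
  constructor
  · intro hij
    by_contra hcon
    have := pos_mono N ((2 * a) ^ (u + 1)) (show c ≤ hi (buf N a u g i) by omega)
    omega
  · intro hij
    by_contra hcon
    have := pos_mono N ((2 * a) ^ (u + 1)) (show lo (buf N a u g i) ≤ c by omega)
    omega

lemma t_level (hN : 2 * (2 * a) ^ T ≤ N.card) (hu : u < T) (j : Fin a) :
    ∑ c ∈ N, (((del N a u c j).1.1 : ℝ) - 1) ≤
      ∑ c ∈ N, 8 * a * ((lg (cell N ((2 * a) ^ u) (pos N ((2 * a) ^ u) c)) : ℝ) -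
        lg (cell N ((2 * a) ^ (u + 1)) (pos N ((2 * a) ^ (u + 1)) c))) := by
  have ha : 0 < a := j.pos
  refine fiber_le N (fun c => pos N ((2 * a) ^ u) c) _ _ fun c0 hc0 => ?_
  set g := pos N ((2 * a) ^ u) c0 with hg
  have hgl : g < (2 * a) ^ u := pos_lt N (by positivity) hc0
  change ∑ c ∈ cell N ((2 * a) ^ u) g, _ ≤ ∑ c ∈ cell N ((2 * a) ^ u) g, _
  have hne := buf_nonempty hN hu hgl j.2
  have hsub : buf N a u g j ⊆ cell N ((2 * a) ^ u) g := buf_sub g j.2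
  have h1 := lg_mono hne hsub
  have h1R : (0 : ℝ) ≤ (lg (cell N ((2 * a) ^ u) g) : ℝ) - lg (buf N a u g j) := by
    rw [sub_nonneg]; exact_mod_cast h1
  have h2 : ∀ c ∈ cell N ((2 * a) ^ u) g, (((del N a u c j).1.1 : ℝ) - 1) =
      (lg (cell N ((2 * a) ^ u) g) : ℝ) - lg (buf N a u g j) := by
    intro c hc
    simp only [del, dsc, (mem_filter.1 hc).2]
    rw [Nat.cast_sub (by omega)]
    push_cast
    ring
  have h3 := cell_ratio N (b := 2 * a) (by omega) hgl (child_lt (d := 2 * j + 1) (by omega) hgl)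
    (pw_le ha hN hu)
  have h3R : ((cell N ((2 * a) ^ u) g).card : ℝ) ≤ 8 * a * (buf N a u g j).card := by
    have : (cell N ((2 * a) ^ u) g).card ≤ 8 * a * (buf N a u g j).card := by
      refine h3.trans (le_of_eq ?_)
      unfold buf
      ring
    exact_mod_cast this
  rw [sum_congr rfl h2, sum_const, nsmul_eq_mul]
  refine le_trans ?_ (sum_le_sum_of_subset_of_nonneg hsub fun c hc _ => ?_)
  · have h4 : ∀ c ∈ buf N a u g j,
        8 * a * ((lg (cell N ((2 * a) ^ u) (pos N ((2 * a) ^ u) c)) : ℝ) -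
        lg (cell N ((2 * a) ^ (u + 1)) (pos N ((2 * a) ^ (u + 1)) c))) =
        8 * a * ((lg (cell N ((2 * a) ^ u) g) : ℝ) - lg (buf N a u g j)) := by
      intro c hc
      rw [(mem_filter.1 (hsub hc)).2, (mem_filter.1 hc).2]
      rfl
    rw [sum_congr rfl h4, sum_const, nsmul_eq_mul]
    nlinarith
  · refine mul_nonneg (by positivity) ?_
    rw [sub_nonneg, Nat.cast_le]
    refine lg_mono ⟨c, mem_filter.2 ⟨(mem_filter.1 hc).1, rfl⟩⟩ fun x hx => ?_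
    refine mem_filter.2 ⟨(mem_filter.1 hx).1, ?_⟩
    rw [← pos_succ N (by omega), (mem_filter.1 hx).2, pos_succ N (by omega)]

lemma t_sum (hNn : N ⊆ range n) (hN : 2 * (2 * a) ^ T ≤ N.card) (j : Fin a) :
    ∑ u ∈ range T, ∑ c ∈ N, ((del N a u c j).1.1 : ℝ) ≤
      N.card * (T + 8 * a * Nat.log 2 n) := by
  have h1 := sum_le_sum fun u (hu : u ∈ range T) => t_level hN (mem_range.1 hu) j
  rw [sum_comm (s := range T) (t := N) (f := fun u c => 8 * a *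
    ((lg (cell N ((2 * a) ^ u) (pos N ((2 * a) ^ u) c)) : ℝ) -
        lg (cell N ((2 * a) ^ (u + 1)) (pos N ((2 * a) ^ (u + 1)) c))))] at h1
  have h2 : ∀ c ∈ N, ∑ u ∈ range T, 8 * a *
      ((lg (cell N ((2 * a) ^ u) (pos N ((2 * a) ^ u) c)) : ℝ) -
        lg (cell N ((2 * a) ^ (u + 1)) (pos N ((2 * a) ^ (u + 1)) c))) ≤
      8 * a * Nat.log 2 n := by
    intro c hc
    rw [← mul_sum, sum_range_sub' (fun u =>
      (lg (cell N ((2 * a) ^ u) (pos N ((2 * a) ^ u) c)) : ℝ))]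
    refine mul_le_mul_of_nonneg_left ?_ (by positivity)
    have h3 : lg (cell N ((2 * a) ^ 0) (pos N ((2 * a) ^ 0) c)) ≤ Nat.log 2 n :=
      lg_le ⟨c, mem_filter.2 ⟨hc, rfl⟩⟩ ((filter_subset _ _).trans hNn)
    have h4 : (lg (cell N ((2 * a) ^ 0) (pos N ((2 * a) ^ 0) c)) : ℝ) ≤ Nat.log 2 n := by
      exact_mod_cast h3
    have h5 : (0 : ℝ) ≤ lg (cell N ((2 * a) ^ T) (pos N ((2 * a) ^ T) c)) := by positivity
    linarith
  have h6 := h1.trans (sum_le_sum h2)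
  simp only [sum_sub_distrib, sum_const, card_range, nsmul_eq_mul, mul_one] at h6
  linarith

end

end Pool.Agent.Lib.MP_a80a1d_h76
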