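import Mathlib
import Pool.Agent.Lib.MP_a80a1d_h76.Side

set_option autoImplicit false

namespace Pool.Agent.Lib.MP_a80a1d_h76

open Finset

def exc {β : Type*} [DecidableEq β] (N : Finset ℕ) (a u : ℕ) (S : ℕ → β) : Finset ℕ :=
  N.filter (fun c => ∃ d < 2 * a,
    2 * (2 * a) * (N.filter (fun c' => pos N ((2 * a) ^ (u + 1)) c' =
      2 * a * pos N ((2 * a) ^ u) c + d ∧ S c' = S c)).card <
    (N.filter (fun c' => pos N ((2 * a) ^ u) c' = pos N ((2 * a) ^ u) c ∧ S c' = S c)).card)

section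

variable {N : Finset ℕ} {a T u n : ℕ}

lemma exc_sum {β : Type*} [DecidableEq β] (ha : 0 < a) (hN : 2 * (2 * a) ^ T ≤ N.card)
    (S : ℕ → β) :
    ∑ u ∈ range T, ((exc N a u S).card : ℝ) ≤
      16 * a * ∑ c ∈ N, (Real.log 2 +
        Real.log (N.card / (N.filter (fun c' => S c' = S c)).card)) := by
  have hb : 0 < 2 * a := by omega
  have hbR : (0 : ℝ) < ((2 * a : ℕ) : ℝ) := by exact_mod_cast hb
  set A : ℕ → ℕ → ℕ := fun u c =>
    (N.filter (fun c' => pos N ((2 * a) ^ u) c' = pos N ((2 * a) ^ u) c ∧ S c' = S c)).card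
    with hA
  have hA0 : ∀ u, ∀ c ∈ N, (0 : ℝ) < A u c := fun u c hc =>
    Nat.cast_pos.2 (card_pos.2 ⟨c, mem_filter.2 ⟨hc, rfl, rfl⟩⟩)
  set G : ℕ → ℕ → ℝ := fun c u => Real.log (((2 * a : ℕ) : ℝ) ^ u * A u c) with hG
  have h1 : ∀ u, ((exc N a u S).card : ℝ) ≤ 16 * a * ∑ c ∈ N, (G c (u + 1) - G c u) := by
    intro u
    have h2 := level N (pos N ((2 * a) ^ (u + 1))) S (2 * a) hb
    simp only [pos_succ N hb] at h2
    rw [div_le_iff₀ (by positivity)] at h2
    refine h2.trans (le_of_eq ?_)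
    rw [mul_comm]
    congr 1
    · push_cast; ring
    · refine sum_congr rfl fun c hc => ?_
      have e1 := hA0 u c hc
      have e2 := hA0 (u + 1) c hc
      simp only [hG]
      rw [← Real.log_div (by positivity) (by positivity)]
      congr 1
      change _ * (A (u + 1) c : ℝ) / (A u c : ℝ) = _
      field_simp
      ring
  refine (sum_le_sum fun u _ => h1 u).trans ?_
  rw [← mul_sum, sum_comm]
  refine mul_le_mul_of_nonneg_left (sum_le_sum fun c hc => ?_) (by positivity)
  rw [sum_range_sub (G c)]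
  have hNc : (0 : ℝ) < N.card := Nat.cast_pos.2 (card_pos.2 ⟨c, hc⟩)
  have e0 : A 0 c = (N.filter (fun c' => S c' = S c)).card := by
    simp only [hA]
    congr 1
    refine filter_congr fun c' hc' => ?_
    have e1 := pos_lt N (B := (2 * a) ^ 0) (by positivity) hc
    have e2 := pos_lt N (B := (2 * a) ^ 0) (by positivity) hc'
    rw [pow_zero] at e1 e2 ⊢
    constructor
    · exact fun h => h.2
    · exact fun h => ⟨by omega, h⟩
  have eT : A T c * (2 * a) ^ T ≤ 2 * N.card := by
    refine le_trans (Nat.mul_le_mul_right _ (card_le_card ?_))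
      (cell_upper N (pos_lt N (B := (2 * a) ^ T) (by positivity) hc) (by omega))
    intro x hx
    exact mem_filter.2 ⟨(mem_filter.1 hx).1, (mem_filter.1 hx).2.1⟩
  have eTR : ((2 * a : ℕ) : ℝ) ^ T * A T c ≤ 2 * N.card := by
    rw [mul_comm]; exact_mod_cast eT
  have e3 := hA0 0 c hc
  have e4 := hA0 T c hc
  have e5 := Real.log_le_log (by positivity) eTR
  rw [Real.log_mul (x := 2) (by norm_num) hNc.ne'] at e5
  simp only [hG]
  rw [pow_zero, one_mul, ← e0, Real.log_div hNc.ne' e3.ne']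
  linarith

lemma exc_cost (ha : 0 < a) (hN : 2 * (2 * a) ^ T ≤ N.card) (S : ℕ → Fin a → Dsc) (L r : ℕ)
    (hS : ∀ c ∈ N, S c ∈ Fintype.piFinset (fun _ : Fin a => dset L r)) :
    ∑ u ∈ range T, ((exc N a u S).card : ℝ) ≤
      16 * a * (N.card * (1 + a * (2 * Real.log (L + 2) + 2)) +
        ∑ c ∈ N, ∑ j, ((S c j).1.1 : ℝ)) := by
  refine (exc_sum ha hN S).trans (mul_le_mul_of_nonneg_left ?_ (by positivity))
  have h1 := gibbs N S _ (fun q => ∏ j, wt L (q j)) hS
    (fun q _ => prod_pos fun j _ => wt_pos L _) (by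
      rw [← prod_univ_sum (fun _ : Fin a => dset L r) (fun _ q => wt L q)]
      exact prod_le_one (fun _ _ => sum_nonneg fun q _ => (wt_pos L q).le)
        fun _ _ => wt_sum L r)
  have hl2 : Real.log 2 ≤ 1 := by have := Real.log_two_lt_d9; linarith
  have h2 : ∀ c ∈ N, -Real.log (∏ j, wt L (S c j)) ≤
      a * (2 * Real.log (L + 2) + 2) + ∑ j, ((S c j).1.1 : ℝ) := by
    intro c _
    rw [Real.log_prod (fun j _ => (wt_pos L _).ne'), ← sum_neg_distrib]
    have h3 : ∀ j ∈ (univ : Finset (Fin a)), -Real.log (wt L (S c j)) ≤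
        (2 * Real.log (L + 2) + 2) + ((S c j).1.1 : ℝ) := by
      intro j _
      unfold wt
      rw [one_div, Real.log_inv, neg_neg, Real.log_mul (by positivity) (by positivity),
        Real.log_pow, Real.log_pow]
      push_cast
      have : (0 : ℝ) ≤ (S c j).1.1 := by positivity
      nlinarith
    refine (sum_le_sum h3).trans (le_of_eq ?_)
    rw [sum_add_distrib, sum_const, card_univ, Fintype.card_fin, nsmul_eq_mul]
  have h4 := h1.trans (sum_le_sum h2)
  rw [sum_add_distrib, sum_const, nsmul_eq_mul] at h4 ⊢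
  have : (0 : ℝ) ≤ N.card := by positivity
  nlinarith

open Classical in
lemma class_le {β : Type*} [DecidableEq β] (hN : 2 * (2 * a) ^ T ≤ N.card) (hu : u < T)
    (S : ℕ → β) {j : ℕ} (hj : j < a) (q : Fin a → Dsc) (s : β) :
    (((N \ exc N a u S).filter (fun c => del N a u c = q ∧ S c = s)).card : ℝ) ≤
      4 * a * (N.filter (fun c => del N a u c = q ∧ S c = s ∧ c ∈ blk q j)).card := by
  have e1 : (N \ exc N a u S).filter (fun c => del N a u c = q ∧ S c = s) =
      N.filter (fun c => c ∉ exc N a u S ∧ del N a u c = q ∧ S c = s) := by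
    ext c; simp only [mem_filter, mem_sdiff]; tauto
  rw [e1, card_filter, card_filter]
  push_cast
  rw [mul_sum]
  refine fiber_le N (fun c => pos N ((2 * a) ^ u) c) _ _ fun c0 hc0 => ?_
  by_cases hex : ∃ c ∈ N.filter (fun c => pos N ((2 * a) ^ u) c = pos N ((2 * a) ^ u) c0),
      c ∉ exc N a u S ∧ del N a u c = q ∧ S c = s
  · obtain ⟨c, hc, h1, h2, h3⟩ := hex
    obtain ⟨hcN, hcp⟩ := mem_filter.1 hc
    rw [← mul_sum, sum_boole, sum_boole, ← hcp]
    have h4 : ¬ 2 * (2 * a) * (N.filter (fun c' => pos N ((2 * a) ^ (u + 1)) c' =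
        2 * a * pos N ((2 * a) ^ u) c + 2 * j ∧ S c' = S c)).card <
        (N.filter (fun c' => pos N ((2 * a) ^ u) c' = pos N ((2 * a) ^ u) c ∧ S c' = S c)).card :=
      fun h => h1 (mem_filter.2 ⟨hcN, 2 * j, by omega, h⟩)
    have h5 : ((N.filter (fun x => pos N ((2 * a) ^ u) x = pos N ((2 * a) ^ u) c)).filter
        (fun c => c ∉ exc N a u S ∧ del N a u c = q ∧ S c = s)).card ≤
        (N.filter (fun c' => pos N ((2 * a) ^ u) c' = pos N ((2 * a) ^ u) c ∧ S c' = S c)).card := by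
      refine card_le_card fun x hx => ?_
      simp only [mem_filter] at hx ⊢
      exact ⟨hx.1.1, hx.1.2, by rw [hx.2.2.2, h3]⟩
    have h6 : (N.filter (fun c' => pos N ((2 * a) ^ (u + 1)) c' =
        2 * a * pos N ((2 * a) ^ u) c + 2 * j ∧ S c' = S c)).card ≤
        ((N.filter (fun x => pos N ((2 * a) ^ u) x = pos N ((2 * a) ^ u) c)).filter
        (fun c => del N a u c = q ∧ S c = s ∧ c ∈ blk q j)).card := by
      refine card_le_card fun x hx => ?_
      obtain ⟨hx1, hx2, hx3⟩ := mem_filter.1 hx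
      have hx4 : pos N ((2 * a) ^ u) x = pos N ((2 * a) ^ u) c :=
        (mem_filter.1 (child_sub N (d := 2 * j) (by omega) u _ (mem_filter.2 ⟨hx1, hx2⟩))).2
      refine mem_filter.2 ⟨mem_filter.2 ⟨hx1, hx4⟩, ?_, by rw [hx3, h3], ?_⟩
      · rw [← h2]; unfold del; rw [hx4]
      · rw [← h2]
        exact child_blk hN hu (pos_lt N (by have : 0 < a := by omega
                                            positivity) hcN) hx2
    have h7 := h5.trans ((not_lt.1 h4).trans (Nat.mul_le_mul_left _ h6))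
    rw [show 2 * (2 * a) = 4 * a by ring] at h7
    exact_mod_cast h7
  · push Not at hex
    rw [sum_eq_zero fun c hc => if_neg fun h => hex c hc h.1 h.2.1 h.2.2]
    exact sum_nonneg fun c _ => by positivity

end

end Pool.Agent.Lib.MP_a80a1d_h76
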