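import Mathlib
import Pool.Agent.Lib.MP_a80a1d_h76.Exc
import Pool.Agent.Lib.MP_a80a1d_h76.Core

set_option autoImplicit false

namespace Pool.Agent.Lib.MP_a80a1d_h76

open Finset

lemma min_deg {ι : Type*} [DecidableEq ι] (E : Finset ι) (π ρ : ι → ℕ) (D : ℕ)
    (h : D * ((E.image π).card + (E.image ρ).card) < E.card) :
    ∃ E' ⊆ E, E'.Nonempty ∧ (∀ e ∈ E', D ≤ (E'.filter (fun x => π x = π e)).card) ∧
      ∀ e ∈ E', D ≤ (E'.filter (fun x => ρ x = ρ e)).card := by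
  obtain ⟨E', hE', hmax⟩ := exists_max_image E.powerset
    (fun X => (X.card : ℤ) - D * ((X.image π).card + (X.image ρ).card)) ⟨E, mem_powerset_self E⟩
  have hsub := mem_powerset.1 hE'
  have key : ∀ (p q : ι → ℕ), (∀ X ⊆ E', (X.card : ℤ) - D * ((X.image p).card + (X.image q).card) ≤
      (E'.card : ℤ) - D * ((E'.image p).card + (E'.image q).card)) →
      ∀ e ∈ E', D ≤ (E'.filter (fun x => p x = p e)).card := by
    intro p q hm e he
    have h1 := hm (E'.filter (fun x => ¬ p x = p e)) (filter_subset _ _)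
    have h2 := card_filter_add_card_filter_not (s := E') (fun x => p x = p e)
    have h3 : ((E'.filter (fun x => ¬ p x = p e)).image q).card ≤ (E'.image q).card :=
      card_le_card (image_subset_image (filter_subset _ _))
    have h4 : ((E'.filter (fun x => ¬ p x = p e)).image p).card < (E'.image p).card := by
      refine card_lt_card ⟨image_subset_image (filter_subset _ _), fun hs => ?_⟩
      obtain ⟨x, hx, hx'⟩ := mem_image.1 (hs (mem_image_of_mem p he))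
      exact (mem_filter.1 hx).2 hx'
    have h5 : D * (((E'.filter (fun x => ¬ p x = p e)).image p).card +
        ((E'.filter (fun x => ¬ p x = p e)).image q).card + 1) ≤
        D * ((E'.image p).card + (E'.image q).card) := Nat.mul_le_mul_left _ (by omega)
    generalize E'.filter (fun x => ¬ p x = p e) = X at h1 h2 h5
    generalize E'.filter (fun x => p x = p e) = X' at h2 ⊢
    zify at h2 h5 ⊢
    nlinarith
  refine ⟨E', hsub, ?_, key π ρ fun X hX => hmax X (mem_powerset.2 (hX.trans hsub)),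
    key ρ π fun X hX => ?_⟩
  · have h1 := hmax E (mem_powerset_self E)
    rw [← card_pos]
    have h2 : (0 : ℤ) ≤ D * ((E'.image π).card + (E'.image ρ).card) := by positivity
    zify at h ⊢
    linarith
  · have := hmax X (mem_powerset.2 (hX.trans hsub))
    linarith

lemma sum_swap (n : ℕ) (Rw Cl : ℕ → Finset ℕ) (hR : ∀ r, Rw r ⊆ range n)
    (hC : ∀ c, Cl c ⊆ range n) (hRC : ∀ r c, c ∈ Rw r ↔ r ∈ Cl c) (f : ℕ → ℕ → ℝ) :
    ∑ r ∈ range n, ∑ c ∈ Rw r, f r c = ∑ c ∈ range n, ∑ r ∈ Cl c, f r c := by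
  refine sum_comm' fun r c => ⟨fun h => ⟨(hRC r c).1 h.2, hR r h.2⟩,
    fun h => ⟨hC c h.1, (hRC r c).2 h.1⟩⟩

lemma side_sum (n a T : ℕ) (ha : 0 < a) (Rw Cl : ℕ → Finset ℕ) (hR : ∀ r, Rw r ⊆ range n)
    (hC : ∀ c, Cl c ⊆ range n) (hRC : ∀ r c, c ∈ Rw r ↔ r ∈ Cl c)
    (hRd : ∀ r, (Rw r).Nonempty → 2 * (2 * a) ^ T ≤ (Rw r).card)
    (hCd : ∀ c, (Cl c).Nonempty → 2 * (2 * a) ^ T ≤ (Cl c).card) :
    ∑ u ∈ range T, ∑ u' ∈ range T, ∑ r ∈ range n,
      ((exc (Rw r) a u (fun c => del (Cl c) a u' r)).card : ℝ) ≤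
      16 * a * (T * (1 + a * (2 * Real.log ((Nat.log 2 n : ℕ) + 2) + 2)) +
        a * (T + 8 * a * Nat.log 2 n)) * ∑ r ∈ range n, ((Rw r).card : ℝ) := by
  set L := Nat.log 2 n with hL
  set W : ℝ := 1 + a * (2 * Real.log ((L : ℝ) + 2) + 2) with hW
  have h1 : ∀ u' ∈ range T, ∀ r ∈ range n,
      ∑ u ∈ range T, ((exc (Rw r) a u (fun c => del (Cl c) a u' r)).card : ℝ) ≤
      16 * a * ((Rw r).card * W + ∑ c ∈ Rw r, ∑ j, ((del (Cl c) a u' r j).1.1 : ℝ)) := by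
    intro u' hu' r _
    rcases (Rw r).eq_empty_or_nonempty with h0 | h0
    · simp [h0, exc]
    · refine exc_cost ha (hRd r h0) _ L r fun c hc => ?_
      have h2 := (hRC r c).1 hc
      exact del_mem (hC c) (hCd c ⟨r, h2⟩) (mem_range.1 hu') h2
  have h2 : ∑ u' ∈ range T, ∑ r ∈ range n, ∑ c ∈ Rw r, ∑ j, ((del (Cl c) a u' r j).1.1 : ℝ) ≤
      a * (T + 8 * a * L) * ∑ r ∈ range n, ((Rw r).card : ℝ) := by
    have e1 : ∑ r ∈ range n, ((Rw r).card : ℝ) = ∑ c ∈ range n, ((Cl c).card : ℝ) := by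
      simpa using sum_swap n Rw Cl hR hC hRC (fun _ _ => 1)
    simp only [sum_swap n Rw Cl hR hC hRC]
    rw [e1, sum_comm, mul_sum]
    refine sum_le_sum fun c _ => ?_
    rcases (Cl c).eq_empty_or_nonempty with h0 | h0
    · simp [h0]
    · have e2 : ∑ u' ∈ range T, ∑ r ∈ Cl c, ∑ j, ((del (Cl c) a u' r j).1.1 : ℝ) =
          ∑ j, ∑ u' ∈ range T, ∑ r ∈ Cl c, ((del (Cl c) a u' r j).1.1 : ℝ) := by
        rw [sum_comm (s := univ)]
        exact sum_congr rfl fun u' _ => sum_comm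
      rw [e2]
      refine (sum_le_sum fun j _ => t_sum (hC c) (hCd c h0) j).trans (le_of_eq ?_)
      rw [sum_const, card_univ, Fintype.card_fin, nsmul_eq_mul]
      ring
  rw [sum_comm]
  have h3 : ∀ u' ∈ range T, ∑ u ∈ range T, ∑ r ∈ range n,
      ((exc (Rw r) a u (fun c => del (Cl c) a u' r)).card : ℝ) ≤
      16 * a * ((∑ r ∈ range n, ((Rw r).card : ℝ)) * W +
        ∑ r ∈ range n, ∑ c ∈ Rw r, ∑ j, ((del (Cl c) a u' r j).1.1 : ℝ)) := by
    intro u' hu'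
    rw [sum_comm, sum_mul, ← sum_add_distrib, mul_sum]
    exact sum_le_sum fun r hr => h1 u' hu' r hr
  refine (sum_le_sum h3).trans ?_
  rw [← mul_sum, sum_add_distrib, sum_const, card_range, nsmul_eq_mul, mul_assoc (16 * (a : ℝ))]
  refine mul_le_mul_of_nonneg_left ?_ (by positivity)
  nlinarith

open Classical in
lemma row_le {ι : Type*} [DecidableEq ι] (Φ B : Finset ι) (π ρ : ι → ℕ) (mk : ℕ → ℕ → ι)
    (h1 : ∀ r c, π (mk r c) = r) (h2 : ∀ r c, ρ (mk r c) = c) (h3 : ∀ e, mk (π e) (ρ e) = e)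
    {a T u j : ℕ} (hu : u < T) (hj : j < a) (r : ℕ) (N : Finset ℕ)
    (hN : N.Nonempty → 2 * (2 * a) ^ T ≤ N.card) (S : ℕ → Fin a → Dsc) (q s : Fin a → Dsc)
    (hΦ : ∀ c, mk r c ∈ Φ ↔ c ∈ N ∧ del N a u c = q ∧ S c = s)
    (hB : ∀ c ∈ exc N a u S, mk r c ∈ B) :
    (((Φ \ B).filter (fun e => π e = r)).card : ℝ) ≤
      4 * a * (Φ.filter (fun e => π e = r ∧ ρ e ∈ blk q j)).card := by
  have e1 : ((Φ \ B).filter (fun e => π e = r)).card ≤
      ((N \ exc N a u S).filter (fun c => del N a u c = q ∧ S c = s)).card := by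
    refine card_le_card_of_injOn ρ (fun e he => ?_) (fun e he e' he' h => ?_)
    · obtain ⟨he1, he2⟩ := mem_filter.1 (mem_coe.1 he)
      obtain ⟨he3, he4⟩ := mem_sdiff.1 he1
      have e2 : mk r (ρ e) = e := by rw [← he2, h3]
      have e3 := (hΦ (ρ e)).1 (by rw [e2]; exact he3)
      exact mem_coe.2 (mem_filter.2 ⟨mem_sdiff.2 ⟨e3.1, fun hx => he4 (e2 ▸ hB _ hx)⟩, e3.2⟩)
    · rw [← h3 e, ← h3 e', h, (mem_filter.1 (mem_coe.1 he)).2, (mem_filter.1 (mem_coe.1 he')).2]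
  have e2 : (N.filter (fun c => del N a u c = q ∧ S c = s ∧ c ∈ blk q j)).card ≤
      (Φ.filter (fun e => π e = r ∧ ρ e ∈ blk q j)).card := by
    refine card_le_card_of_injOn (mk r) (fun c hc => ?_) (fun c _ c' _ h => ?_)
    · obtain ⟨hc1, hc2, hc3, hc4⟩ := mem_filter.1 (mem_coe.1 hc)
      exact mem_coe.2 (mem_filter.2 ⟨(hΦ c).2 ⟨hc1, hc2, hc3⟩, h1 r c, by rw [h2]; exact hc4⟩)
    · rw [← h2 r c, h, h2]
  rcases N.eq_empty_or_nonempty with h0 | h0
  · subst h0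
    simp only [empty_sdiff, filter_empty, card_empty, nonpos_iff_eq_zero] at e1
    rw [e1, Nat.cast_zero]
    positivity
  · refine (Nat.cast_le.2 e1).trans (le_trans ?_
      (mul_le_mul_of_nonneg_left (Nat.cast_le.2 e2) (by positivity)))
    convert class_le (hN h0) hu S hj q s

end Pool.Agent.Lib.MP_a80a1d_h76
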