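import Mathlib
import Pool.Agent.Lib.MP_a80a1d_h76.Pair

set_option autoImplicit false

namespace Pool.Agent.Lib.MP_a80a1d_h76

open Finset

lemma filter_card_le (n : ℕ) (E : Finset (ℕ × ℕ)) (π ρ : ℕ × ℕ → ℕ) (hπ : ∀ e ∈ E, π e < n)
    (hinj : ∀ e e', π e = π e' → ρ e = ρ e' → e = e') (X : ℕ → Finset ℕ) :
    ((E.filter (fun e => ρ e ∈ X (π e))).card : ℝ) ≤ ∑ r ∈ range n, ((X r).card : ℝ) := by
  have h1 : (E.filter (fun e => ρ e ∈ X (π e))).card ≤ ((range n).sigma X).card := by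
    refine card_le_card_of_injOn (fun e => ⟨π e, ρ e⟩) (fun e he => ?_) (fun e _ e' _ h => ?_)
    · obtain ⟨h1, h2⟩ := mem_filter.1 (mem_coe.1 he)
      exact mem_coe.2 (mem_sigma.2 ⟨mem_range.2 (hπ e h1), h2⟩)
    · simp only [Sigma.mk.injEq, heq_eq_eq] at h
      exact hinj e e' h.1 h.2
  rw [card_sigma] at h1
  exact_mod_cast h1

open Classical in
lemma dense_core (k : ℕ) (F : SimpleGraph (Fin k)) (hF : F.IsAcyclic) (m0 : ℕ)
    (hcut : ∀ i j : Fin k, F.Adj i j → (i.val < m0 ↔ m0 ≤ j.val))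
    (R : ℕ → ℕ → Prop) (hR : ∀ x y, R x y → R y x) (n T a : ℕ) (ha : a = k + 1)
    (E : Finset (ℕ × ℕ))
    (hE : ∀ e ∈ E, e.1 < e.2 ∧ e.2 < n ∧ R e.1 e.2) (hne : E.Nonempty)
    (hd1 : ∀ e ∈ E, 2 * (2 * a) ^ T ≤ (E.filter (fun x => x.1 = e.1)).card)
    (hd2 : ∀ e ∈ E, 2 * (2 * a) ^ T ≤ (E.filter (fun x => x.2 = e.2)).card)
    (hT : (4 * a : ℝ) ^ (k + 1) * (k + 2) * (2 * (16 * a *
      (T * (1 + a * (2 * Real.log ((Nat.log 2 n : ℕ) + 2) + 2)) +
        a * (T + 8 * a * Nat.log 2 n)))) < (T : ℝ) ^ 2) :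
    ∃ f : Fin k → ℕ, StrictMono f ∧ (∀ v, f v < n) ∧ ∀ u v, F.Adj u v → R (f u) (f v) := by
  have ha0 : 0 < a := by omega
  have haR : (1 : ℝ) ≤ a := by exact_mod_cast ha0
  set Lam : ℝ := (4 * a : ℝ) ^ (k + 1) * (k + 2) with hLam
  have hLam0 : 0 ≤ Lam := by positivity
  set Q : ℝ := 16 * a * (T * (1 + a * (2 * Real.log ((Nat.log 2 n : ℕ) + 2) + 2)) +
        a * (T + 8 * a * Nat.log 2 n)) with hQ
  set Rw : ℕ → Finset ℕ := fun r => (range n).filter (fun c => (r, c) ∈ E) with hRw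
  set Cl : ℕ → Finset ℕ := fun c => (range n).filter (fun r => (r, c) ∈ E) with hCl
  have mR : ∀ r c, c ∈ Rw r ↔ (r, c) ∈ E := fun r c => by
    simp only [hRw, mem_filter, mem_range]
    exact ⟨fun h => h.2, fun h => ⟨(hE _ h).2.1, h⟩⟩
  have mC : ∀ r c, r ∈ Cl c ↔ (r, c) ∈ E := fun r c => by
    simp only [hCl, mem_filter, mem_range]
    exact ⟨fun h => h.2, fun h => ⟨lt_trans (hE _ h).1 (hE _ h).2.1, h⟩⟩
  have hRs : ∀ r, Rw r ⊆ range n := fun r => filter_subset _ _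
  have hCs : ∀ r, Cl r ⊆ range n := fun r => filter_subset _ _
  have hRC : ∀ r c, c ∈ Rw r ↔ r ∈ Cl c := fun r c => by rw [mR, mC]
  have hRcard : ∀ r, (Rw r).card = (E.filter (fun x => x.1 = r)).card := by
    intro r
    refine card_bij (fun c _ => (r, c)) (fun c hc => mem_filter.2 ⟨(mR r c).1 hc, rfl⟩)
      (fun c _ c' _ h => (Prod.mk.inj h).2) (fun e he => ?_)
    obtain ⟨h1, h2⟩ := mem_filter.1 he
    subst h2
    exact ⟨e.2, (mR _ _).2 h1, rfl⟩
  have hCcard : ∀ c, (Cl c).card = (E.filter (fun x => x.2 = c)).card := by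
    intro c
    refine card_bij (fun r _ => (r, c)) (fun r hr => mem_filter.2 ⟨(mC r c).1 hr, rfl⟩)
      (fun c _ c' _ h => (Prod.mk.inj h).1) (fun e he => ?_)
    obtain ⟨h1, h2⟩ := mem_filter.1 he
    subst h2
    exact ⟨e.1, (mC _ _).2 h1, rfl⟩
  have hRd : ∀ r, (Rw r).Nonempty → 2 * (2 * a) ^ T ≤ (Rw r).card := by
    rintro r ⟨c, hc⟩
    rw [hRcard]
    exact hd1 (r, c) ((mR r c).1 hc)
  have hCd : ∀ c, (Cl c).Nonempty → 2 * (2 * a) ^ T ≤ (Cl c).card := by
    rintro c ⟨r, hr⟩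
    rw [hCcard]
    exact hd2 (r, c) ((mC r c).1 hr)
  have hm1 : ∑ r ∈ range n, ((Rw r).card : ℝ) = E.card := by
    simp only [hRcard]
    rw [fib_sum, filter_true_of_mem fun e he => mem_range.2 (lt_trans (hE _ he).1 (hE _ he).2.1)]
  have hm2 : ∑ r ∈ range n, ((Cl r).card : ℝ) = E.card := by
    simp only [hCcard]
    rw [fib_sum, filter_true_of_mem fun e he => mem_range.2 (hE _ he).2.1]
  have s1 := side_sum n a T ha0 Rw Cl hRs hCs hRC hRd hCd
  have s2 := side_sum n a T ha0 Cl Rw hCs hRs (fun c r => (hRC r c).symm) hCd hRd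
  rw [hm1, ← hQ] at s1
  rw [hm2, ← hQ, sum_comm] at s2
  set XR : ℕ → ℕ → ℕ → Finset ℕ := fun u u' r => exc (Rw r) a u (fun c => del (Cl c) a u' r)
    with hXR
  set XC : ℕ → ℕ → ℕ → Finset ℕ := fun u u' c => exc (Cl c) a u' (fun r => del (Rw r) a u c)
    with hXC
  set B : ℕ → ℕ → Finset (ℕ × ℕ) := fun u u' =>
    E.filter (fun e => e.2 ∈ XR u u' e.1) ∪ E.filter (fun e => e.1 ∈ XC u u' e.2) with hB
  have hBc : ∀ u u', ((B u u').card : ℝ) ≤
      ∑ r ∈ range n, ((XR u u' r).card : ℝ) + ∑ c ∈ range n, ((XC u u' c).card : ℝ) := by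
    intro u u'
    have e1 := filter_card_le n E Prod.fst Prod.snd
      (fun e he => lt_trans (hE _ he).1 (hE _ he).2.1) (fun e e' h h' => Prod.ext h h') (XR u u')
    have e2 := filter_card_le n E Prod.snd Prod.fst
      (fun e he => (hE _ he).2.1) (fun e e' h h' => Prod.ext h' h) (XC u u')
    have e3 : ((B u u').card : ℝ) ≤ (E.filter (fun e => e.2 ∈ XR u u' e.1)).card +
        (E.filter (fun e => e.1 ∈ XC u u' e.2)).card := by
      exact_mod_cast card_union_le _ _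
    linarith
  have hEpos : (0 : ℝ) < E.card := Nat.cast_pos.2 (card_pos.2 hne)
  obtain ⟨u, hu, u', hu', hsm⟩ : ∃ u < T, ∃ u' < T, Lam * (B u u').card < E.card := by
    by_contra hcon
    push Not at hcon
    have e1 : ∑ u ∈ range T, ∑ u' ∈ range T, (E.card : ℝ) ≤
        ∑ u ∈ range T, ∑ u' ∈ range T, Lam * (∑ r ∈ range n, ((XR u u' r).card : ℝ) +
          ∑ c ∈ range n, ((XC u u' c).card : ℝ)) :=
      sum_le_sum fun u hu => sum_le_sum fun u' hu' =>
        (hcon u (mem_range.1 hu) u' (mem_range.1 hu')).trans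
          (mul_le_mul_of_nonneg_left (hBc u u') hLam0)
    simp only [← mul_sum, sum_add_distrib, sum_const, card_range, nsmul_eq_mul] at e1
    have e2 := mul_le_mul_of_nonneg_left (add_le_add s1 s2) hLam0
    have e3 := mul_lt_mul_of_pos_right hT hEpos
    nlinarith
  set key : ℕ × ℕ → (Fin a → Dsc) × (Fin a → Dsc) := fun e =>
    (del (Rw e.1) a u e.2, del (Cl e.2) a u' e.1) with hkey
  obtain ⟨e0, he0, hcl⟩ : ∃ e0 ∈ E, Lam * (E.filter (fun e => key e = key e0) ∩ B u u').card <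
      (E.filter (fun e => key e = key e0)).card := by
    by_contra hcon
    push Not at hcon
    have e1 := fiber_le E key (fun _ => 1) (fun e => Lam * if e ∈ B u u' then 1 else 0)
      (fun e0 he0 => by
        rw [← mul_sum, sum_boole, filter_mem_eq_inter, sum_const, nsmul_eq_mul, mul_one]
        exact hcon e0 he0)
    rw [← mul_sum, sum_boole, filter_mem_eq_inter, sum_const, nsmul_eq_mul, mul_one] at e1
    have e2 : ((E ∩ B u u').card : ℝ) ≤ (B u u').card :=
      Nat.cast_le.2 (card_le_card inter_subset_right)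
    have e3 := mul_le_mul_of_nonneg_left e2 hLam0
    linarith
  set Φ := E.filter (fun e => key e = key e0) with hΦ
  obtain ⟨f, hf1, hf2, hf3⟩ := coreL k F hF m0 hcut R hR Φ (B u u') (blk (key e0).2)
    (blk (key e0).1) (4 * a) (by linarith)
    (fun i i' h h' => blk_ordered _ i i' h (by omega))
    (fun i i' h h' => blk_ordered _ i i' h (by omega))
    (fun e he => ⟨(hE e (mem_filter.1 he).1).1, (hE e (mem_filter.1 he).1).2.2⟩)
    (fun j hj r => by
      convert row_le Φ (B u u') Prod.fst Prod.snd (fun r c => (r, c)) (fun _ _ => rfl)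
        (fun _ _ => rfl) (fun _ => rfl) hu (show j < a by omega) r (Rw r) (hRd r)
        (fun c => del (Cl c) a u' r) (key e0).1 (key e0).2 (fun c => by
          rw [hΦ, mem_filter, mR, Prod.ext_iff]) (fun c hc => mem_union_left _
            (mem_filter.2 ⟨(mR r c).1 (mem_filter.1 hc).1, hc⟩)))
    (fun i hi c => by
      convert row_le Φ (B u u') Prod.snd Prod.fst (fun c r => (r, c)) (fun _ _ => rfl)
        (fun _ _ => rfl) (fun _ => rfl) hu' (show i < a by omega) c (Cl c) (hCd c)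
        (fun r => del (Rw r) a u c) (key e0).2 (key e0).1 (fun r => by
          rw [hΦ, mem_filter, mC, Prod.ext_iff, and_comm (a := (key (r, c)).1 = _)])
        (fun r hr => mem_union_right _
            (mem_filter.2 ⟨(mC r c).1 (mem_filter.1 hr).1, hr⟩)))
    hcl
  refine ⟨f, hf1, fun v => ?_, hf3⟩
  obtain ⟨e, he, h⟩ := hf2 v
  have := hE e (mem_filter.1 he).1
  omega

end Pool.Agent.Lib.MP_a80a1d_h76
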