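import Mathlib
import Pool.Agent.Lib.MP_a80a1d_h76.Dense
import Pool.Agent.Lib.MP_a80a1d_co.Main

set_option autoImplicit false

namespace Pool.Agent.Lib.MP_a80a1d_h76

open Finset

lemma numer (Lam a L T : ℝ) (hLam : 1 ≤ Lam) (ha : 1 ≤ a) (hL : 0 ≤ L)
    (hT : (513 * Lam * a ^ 3) * √(L + 2) ≤ T) :
    Lam * (2 * (16 * a * (T * (1 + a * (2 * Real.log (L + 2) + 2)) + a * (T + 8 * a * L)))) <
      T ^ 2 := by
  set s := √(L + 2) with hs
  have hs2 : s ^ 2 = L + 2 := Real.sq_sqrt (by linarith)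
  have hs1 : 1 ≤ s := Real.one_le_sqrt.2 (by linarith)
  have hlog : Real.log (L + 2) ≤ 2 * s := by
    rw [← hs2, Real.log_pow]
    have := Real.log_le_sub_one_of_pos (show 0 < s by linarith)
    push_cast
    linarith
  have ha3 : 1 ≤ a ^ 3 := one_le_pow₀ ha
  have hC : 1 ≤ Lam * a ^ 3 := one_le_mul_of_one_le_of_one_le hLam ha3
  have hsT : s ≤ T := by nlinarith
  have hT0 : 0 < T := by linarith
  have h1 : 1 + a * (2 * Real.log (L + 2) + 2) + a ≤ 8 * a ^ 2 * s := by
    have e1 : a * (2 * Real.log (L + 2)) ≤ a * (4 * s) :=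
      mul_le_mul_of_nonneg_left (by linarith) (by linarith)
    have e2 : a ≤ a * s := le_mul_of_one_le_right (by linarith) hs1
    have e3 : a * s ≤ a * (a * s) := le_mul_of_one_le_left (by positivity) ha
    nlinarith
  have h2 : L ≤ s * T := by nlinarith
  have h3 : T * (1 + a * (2 * Real.log (L + 2) + 2)) + a * (T + 8 * a * L) ≤
      16 * a ^ 2 * s * T := by
    have e1 := mul_le_mul_of_nonneg_left h1 hT0.le
    have e2 := mul_le_mul_of_nonneg_left h2 (show 0 ≤ 8 * a ^ 2 by positivity)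
    nlinarith
  have h4 := mul_le_mul_of_nonneg_left h3 (show 0 ≤ Lam * (2 * (16 * a)) by positivity)
  have h5 := mul_le_mul_of_nonneg_right hT hT0.le
  have h6 : 0 < Lam * a ^ 3 * s * T := by positivity
  nlinarith

open Classical in
theorem sqrt_log_bound (k : ℕ) (F : SimpleGraph (Fin k)) (hF : F.IsAcyclic)
    (hm : ∃ m : ℕ, ∀ i j : Fin k, F.Adj i j → (i.val < m ↔ m ≤ j.val)) :
    ∃ C : ℝ, ∀ (n : ℕ) (G : SimpleGraph (Fin n)),
      (¬ ∃ f : Fin k → Fin n, StrictMono f ∧ ∀ i j : Fin k, F.Adj i j → G.Adj (f i) (f j)) →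
      (G.edgeSet.ncard : ℝ) ≤ n * Real.exp (C * √(Real.log n)) := by
  obtain ⟨m0, hcut⟩ := hm
  set a := k + 1 with ha
  have haR : (1 : ℝ) ≤ a := by exact_mod_cast (show 1 ≤ a by omega)
  set Lam : ℝ := (4 * a : ℝ) ^ (k + 1) * (k + 2) with hLam
  have hLam1 : 1 ≤ Lam := one_le_mul_of_one_le_of_one_le (one_le_pow₀ (by linarith))
    (by have : (0 : ℝ) ≤ k := by positivity
        linarith)
  set C0 : ℝ := 513 * Lam * a ^ 3 with hC0
  have hC01 : 1 ≤ C0 := by
    have := one_le_mul_of_one_le_of_one_le hLam1 (one_le_pow₀ (n := 3) haR)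
    nlinarith
  refine ⟨3 + 6 * C0 * (2 * a), fun n G hG => ?_⟩
  set E : Finset (ℕ × ℕ) := (range n ×ˢ range n).filter
    (fun e => e.1 < e.2 ∧ ∃ (hx : e.1 < n) (hy : e.2 < n), G.Adj ⟨e.1, hx⟩ ⟨e.2, hy⟩) with hE
  have hcount : (G.edgeSet.ncard : ℝ) ≤ E.card := by
    refine (MP_a80a1d_co.edge_count n G).trans (le_of_eq ?_)
    rw [hE, card_filter, sum_product]
    push_cast
    congr!
  refine hcount.trans ?_
  by_cases hn : n < 2
  · have : E = ∅ := by
      refine eq_empty_of_forall_notMem fun e he => ?_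
      obtain ⟨-, h1, -, h2, -⟩ := mem_filter.1 he
      omega
    rw [this, card_empty, Nat.cast_zero]
    positivity
  push Not at hn
  have hnR : (2 : ℝ) ≤ n := by exact_mod_cast hn
  set L := Nat.log 2 n with hL
  set T := ⌈C0 * √((L : ℝ) + 2)⌉₊ with hT
  have hT1 : C0 * √((L : ℝ) + 2) ≤ T := Nat.le_ceil _
  have hcard : E.card ≤ 2 * (2 * a) ^ T * (n + n) := by
    by_contra hcon
    have e1 : (E.image Prod.fst).card ≤ n := by
      refine (card_le_card fun x hx => ?_).trans (card_range n).le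
      obtain ⟨e, he, rfl⟩ := mem_image.1 hx
      exact (mem_product.1 (mem_filter.1 he).1).1
    have e2 : (E.image Prod.snd).card ≤ n := by
      refine (card_le_card fun x hx => ?_).trans (card_range n).le
      obtain ⟨e, he, rfl⟩ := mem_image.1 hx
      exact (mem_product.1 (mem_filter.1 he).1).2
    obtain ⟨E', hs, hne, hd1, hd2⟩ := min_deg E Prod.fst Prod.snd (2 * (2 * a) ^ T)
      (lt_of_le_of_lt (Nat.mul_le_mul_left _ (add_le_add e1 e2)) (not_le.1 hcon))
    obtain ⟨f, hf1, hf2, hf3⟩ := dense_core k F hF m0 hcut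
      (fun x y => ∃ (hx : x < n) (hy : y < n), G.Adj ⟨x, hx⟩ ⟨y, hy⟩)
      (fun x y ⟨hx, hy, h⟩ => ⟨hy, hx, h.symm⟩) n T a ha E'
      (fun e he => by
        obtain ⟨-, h1, h2⟩ := mem_filter.1 (hs he)
        exact ⟨h1, h2.choose_spec.choose, h2⟩) hne hd1 hd2
      (numer Lam a L T hLam1 haR (by positivity) hT1)
    refine hG ⟨fun v => ⟨f v, hf2 v⟩, fun u v huv => hf1 huv, fun i j hij => ?_⟩
    obtain ⟨_, _, h⟩ := hf3 i j hij
    exact h
  have hl2 := Real.log_two_gt_d9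
  have hl2' := Real.log_two_lt_d9
  have hlogn : Real.log 2 ≤ Real.log n := Real.log_le_log (by norm_num) hnR
  set w := √(Real.log n) with hw
  have hw2 : w ^ 2 = Real.log n := Real.sq_sqrt (by linarith)
  have hw0 : 0 ≤ w := Real.sqrt_nonneg _
  have hw1 : 2 / 3 ≤ w := Real.le_sqrt_of_sq_le (by linarith)
  have hLle : (L : ℝ) * Real.log 2 ≤ Real.log n := by
    have e1 : 2 ^ L ≤ n := Nat.pow_log_le_self 2 (by omega)
    have e2 : (2 : ℝ) ^ L ≤ n := by exact_mod_cast e1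
    have e3 := Real.log_le_log (by positivity) e2
    rwa [Real.log_pow] at e3
  have hL0 : (0 : ℝ) ≤ L := by positivity
  have hs3 : √((L : ℝ) + 2) ≤ 3 * w := by
    rw [Real.sqrt_le_iff]
    refine ⟨by positivity, ?_⟩
    nlinarith
  have hs1 : 1 ≤ √((L : ℝ) + 2) := Real.one_le_sqrt.2 (by linarith)
  have hT2 : (T : ℝ) ≤ 6 * C0 * w := by
    have e1 : (T : ℝ) < C0 * √((L : ℝ) + 2) + 1 := Nat.ceil_lt_add_one (by positivity)
    have e2 := one_le_mul_of_one_le_of_one_le hC01 hs1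
    have e3 := mul_le_mul_of_nonneg_left hs3 (show 0 ≤ C0 by linarith)
    linarith
  have hcR : (E.card : ℝ) ≤ n * (4 * (2 * a : ℝ) ^ T) := by
    have : (E.card : ℝ) ≤ 2 * (2 * a : ℝ) ^ T * (n + n) := by exact_mod_cast hcard
    linarith
  refine hcR.trans (mul_le_mul_of_nonneg_left ?_ (by positivity))
  rw [add_mul, Real.exp_add]
  refine mul_le_mul ?_ ?_ (by positivity) (by positivity)
  · have e1 := Real.add_one_le_exp (3 * w / 2)
    have e2 : Real.exp (3 * w) = Real.exp (3 * w / 2) * Real.exp (3 * w / 2) := by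
      rw [← Real.exp_add]; congr 1; ring
    nlinarith
  · have e1 : (2 * a : ℝ) ≤ Real.exp (2 * a) := by
      have := Real.add_one_le_exp (2 * a : ℝ)
      linarith
    refine (pow_le_pow_left₀ (by positivity) e1 T).trans ?_
    rw [← Real.exp_nat_mul, Real.exp_le_exp]
    nlinarith

end Pool.Agent.Lib.MP_a80a1d_h76
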